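import Mathlib

set_option autoImplicit false

namespace Pool.Agent.helper47

/-- Input data for the Lie algebras used in the counterexample: a commutative algebra `T` over the
field with two elements, commuting derivations `D d` of `T`, and a linear functional `Θ` on `T`
that vanishes on all derivatives. -/
structure HData where
  T : Type
  ι : Type
  [cr : CommRing T]
  [alg : Algebra (ZMod 2) T]
  D : (ι → ZMod 2) →ₗ[ZMod 2] Derivation (ZMod 2) T T
  comm : ∀ d d' t, D d (D d' t) = D d' (D d t)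
  Θ : T →ₗ[ZMod 2] ZMod 2
  hΘ : ∀ d t, Θ (D d t) = 0

attribute [instance] HData.cr HData.alg

/-- The underlying vector space of the Lie algebra. -/
def Heis (P : HData) : Type :=
  ZMod 2 × P.T × P.T × P.T × ZMod 2 × ZMod 2 × (P.ι → ZMod 2)

namespace Heis

variable {P : HData}

noncomputable instance : AddCommGroup (Heis P) :=
  inferInstanceAs (AddCommGroup (ZMod 2 × P.T × P.T × P.T × ZMod 2 × ZMod 2 × (P.ι → ZMod 2)))

noncomputable instance : Module (ZMod 2) (Heis P) :=
  inferInstanceAs (Module (ZMod 2) (ZMod 2 × P.T × P.T × P.T × ZMod 2 × ZMod 2 × (P.ι → ZMod 2)))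

def z (u : Heis P) : ZMod 2 := u.1
def a (u : Heis P) : P.T := u.2.1
def b (u : Heis P) : P.T := u.2.2.1
def r (u : Heis P) : P.T := u.2.2.2.1
def x (u : Heis P) : ZMod 2 := u.2.2.2.2.1
def y (u : Heis P) : ZMod 2 := u.2.2.2.2.2.1
def d (u : Heis P) : P.ι → ZMod 2 := u.2.2.2.2.2.2

def mk (z : ZMod 2) (a b r : P.T) (x y : ZMod 2) (d : P.ι → ZMod 2) : Heis P :=
  (z, a, b, r, x, y, d)

lemma ext' {u v : Heis P} (hz : u.z = v.z) (ha : u.a = v.a) (hb : u.b = v.b) (hr : u.r = v.r)
    (hx : u.x = v.x) (hy : u.y = v.y) (hd : u.d = v.d) : u = v := by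
  obtain ⟨z, a, b, r, x, y, d⟩ := u
  obtain ⟨z', a', b', r', x', y', d'⟩ := v
  simp only [Heis.z, Heis.a, Heis.b, Heis.r, Heis.x, Heis.y, Heis.d] at *
  subst hz ha hb hr hx hy hd
  rfl

section mk
variable (z₀ : ZMod 2) (a₀ b₀ r₀ : P.T) (x₀ y₀ : ZMod 2) (d₀ : P.ι → ZMod 2)
@[simp] lemma mk_z : (mk z₀ a₀ b₀ r₀ x₀ y₀ d₀ : Heis P).z = z₀ := rfl
@[simp] lemma mk_a : (mk z₀ a₀ b₀ r₀ x₀ y₀ d₀ : Heis P).a = a₀ := rfl
@[simp] lemma mk_b : (mk z₀ a₀ b₀ r₀ x₀ y₀ d₀ : Heis P).b = b₀ := rfl
@[simp] lemma mk_r : (mk z₀ a₀ b₀ r₀ x₀ y₀ d₀ : Heis P).r = r₀ := rfl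
@[simp] lemma mk_x : (mk z₀ a₀ b₀ r₀ x₀ y₀ d₀ : Heis P).x = x₀ := rfl
@[simp] lemma mk_y : (mk z₀ a₀ b₀ r₀ x₀ y₀ d₀ : Heis P).y = y₀ := rfl
@[simp] lemma mk_d : (mk z₀ a₀ b₀ r₀ x₀ y₀ d₀ : Heis P).d = d₀ := rfl
end mk

section add
variable (u v : Heis P) (c : ZMod 2)
@[simp] lemma add_z : (u + v).z = u.z + v.z := rfl
@[simp] lemma add_a : (u + v).a = u.a + v.a := rfl
@[simp] lemma add_b : (u + v).b = u.b + v.b := rfl
@[simp] lemma add_r : (u + v).r = u.r + v.r := rfl
@[simp] lemma add_x : (u + v).x = u.x + v.x := rfl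
@[simp] lemma add_y : (u + v).y = u.y + v.y := rfl
@[simp] lemma add_d : (u + v).d = u.d + v.d := rfl
@[simp] lemma smul_z : (c • u).z = c * u.z := rfl
@[simp] lemma smul_a : (c • u).a = c • u.a := rfl
@[simp] lemma smul_b : (c • u).b = c • u.b := rfl
@[simp] lemma smul_r : (c • u).r = c • u.r := rfl
@[simp] lemma smul_x : (c • u).x = c * u.x := rfl
@[simp] lemma smul_y : (c • u).y = c * u.y := rfl
@[simp] lemma smul_d : (c • u).d = c • u.d := rfl
@[simp] lemma zero_z : (0 : Heis P).z = 0 := rfl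
@[simp] lemma zero_a : (0 : Heis P).a = 0 := rfl
@[simp] lemma zero_b : (0 : Heis P).b = 0 := rfl
@[simp] lemma zero_r : (0 : Heis P).r = 0 := rfl
@[simp] lemma zero_x : (0 : Heis P).x = 0 := rfl
@[simp] lemma zero_y : (0 : Heis P).y = 0 := rfl
@[simp] lemma zero_d : (0 : Heis P).d = 0 := rfl
end add

noncomputable instance : Bracket (Heis P) (Heis P) :=
  ⟨fun u v => mk
    (P.Θ (u.a * v.b + u.b * v.a))
    (u.a * v.r + P.D v.d u.a + v.y • u.b + (v.a * u.r + P.D u.d v.a + u.y • v.b))
    (u.b * v.r + P.D v.d u.b + v.x • u.a + (v.b * u.r + P.D u.d v.b + u.x • v.a))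
    (P.D v.d u.r + P.D u.d v.r + (u.x * v.y + u.y * v.x) • (1 : P.T))
    0 0 0⟩

section br
variable (u v : Heis P)
@[simp] lemma br_z : (⁅u, v⁆ : Heis P).z = P.Θ (u.a * v.b + u.b * v.a) := rfl
@[simp] lemma br_a : (⁅u, v⁆ : Heis P).a =
  u.a * v.r + P.D v.d u.a + v.y • u.b + (v.a * u.r + P.D u.d v.a + u.y • v.b) := rfl
@[simp] lemma br_b : (⁅u, v⁆ : Heis P).b =
  u.b * v.r + P.D v.d u.b + v.x • u.a + (v.b * u.r + P.D u.d v.b + u.x • v.a) := rfl
@[simp] lemma br_r : (⁅u, v⁆ : Heis P).r =
  P.D v.d u.r + P.D u.d v.r + (u.x * v.y + u.y * v.x) • (1 : P.T) := rfl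
@[simp] lemma br_x : (⁅u, v⁆ : Heis P).x = 0 := rfl
@[simp] lemma br_y : (⁅u, v⁆ : Heis P).y = 0 := rfl
@[simp] lemma br_d : (⁅u, v⁆ : Heis P).d = 0 := rfl
end br

lemma two_T (P : HData) : (2 : P.T) = 0 := by
  have h1 : (2 : P.T) = algebraMap (ZMod 2) P.T (2 : ZMod 2) := (map_ofNat _ 2).symm
  rw [h1]
  exact map_zero _

lemma D_one (P : HData) (d : P.ι → ZMod 2) : P.D d (1 : P.T) = 0 := Derivation.map_one_eq_zero _

noncomputable instance : LieRing (Heis P) where
  add_lie u v w := by
    apply ext'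
    · simp only [br_z, add_z, add_a, add_b, ← map_add]
      congr 1
      ring
    · simp only [br_a, add_a, add_b, add_r, add_y, add_d, map_add, smul_add, add_smul,
        Derivation.add_apply]
      ring
    · simp only [br_b, add_a, add_b, add_r, add_x, add_d, map_add, smul_add, add_smul,
        Derivation.add_apply]
      ring
    · simp only [br_r, add_r, add_x, add_y, add_d, map_add, smul_add, add_smul,
        Derivation.add_apply, add_mul, mul_add]
      ring
    all_goals simp
  lie_add u v w := by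
    apply ext'
    · simp only [br_z, add_z, add_a, add_b, ← map_add]
      congr 1
      ring
    · simp only [br_a, add_a, add_b, add_r, add_y, add_d, map_add, smul_add, add_smul,
        Derivation.add_apply]
      ring
    · simp only [br_b, add_a, add_b, add_r, add_x, add_d, map_add, smul_add, add_smul,
        Derivation.add_apply]
      ring
    · simp only [br_r, add_r, add_x, add_y, add_d, map_add, smul_add, add_smul,
        Derivation.add_apply, add_mul, mul_add]
      ring
    all_goals simp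
  lie_self u := by
    have h2 := two_T P
    apply ext'
    · simp only [br_z, zero_z]
      have : u.a * u.b + u.b * u.a = 0 := by linear_combination (u.a * u.b) * h2
      rw [this, map_zero]
    · simp only [br_a, zero_a]
      linear_combination (u.a * u.r + P.D u.d u.a + u.y • u.b) * h2
    · simp only [br_b, zero_b]
      linear_combination (u.b * u.r + P.D u.d u.b + u.x • u.a) * h2
    · simp only [br_r, zero_r, add_smul]
      rw [mul_comm u.y u.x]
      linear_combination (P.D u.d u.r + (u.x * u.y) • (1 : P.T)) * h2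
    all_goals simp
  leibniz_lie u v w := by
    have h2 := two_T P
    apply ext'
    · simp only [br_z, add_z, br_a, br_b, ← map_add]
      have e1 : ∀ (d : P.ι → ZMod 2) (s t : P.T), P.D d (s * t) = s * P.D d t + t * P.D d s := by
        intro d s t; simp [Derivation.leibniz]
      have key : u.a * (v.b * w.r + P.D w.d v.b + w.x • v.a + (w.b * v.r + P.D v.d w.b + v.x • w.a))
          + u.b * (v.a * w.r + P.D w.d v.a + w.y • v.b + (w.a * v.r + P.D v.d w.a + v.y • w.b))
          = ((u.a * v.r + P.D v.d u.a + v.y • u.b + (v.a * u.r + P.D u.d v.a + u.y • v.b)) * w.b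
            + (u.b * v.r + P.D v.d u.b + v.x • u.a + (v.b * u.r + P.D u.d v.b + u.x • v.a)) * w.a
            + (v.a * (u.b * w.r + P.D w.d u.b + w.x • u.a + (w.b * u.r + P.D u.d w.b + u.x • w.a))
            + v.b * (u.a * w.r + P.D w.d u.a + w.y • u.b + (w.a * u.r + P.D u.d w.a + u.y • w.b))))
            + (P.D w.d (u.a * v.b + u.b * v.a) + P.D v.d (u.a * w.b + u.b * w.a)
              + P.D u.d (v.a * w.b + v.b * w.a)) := by
        simp only [Algebra.smul_def, map_add, e1]
        grind
      have hk : P.Θ (P.D w.d (u.a * v.b + u.b * v.a) + P.D v.d (u.a * w.b + u.b * w.a)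
              + P.D u.d (v.a * w.b + v.b * w.a)) = 0 := by
        rw [map_add P.Θ, map_add P.Θ, P.hΘ, P.hΘ, P.hΘ]
        rfl
      rw [key, map_add P.Θ, hk, add_zero]
    · simp only [br_a, add_a, br_b, br_r, br_y, br_d, map_add, map_zero, Derivation.leibniz,
        Derivation.zero_apply, smul_eq_mul, Derivation.map_smul, Algebra.smul_def, map_mul,
        D_one, Derivation.map_algebraMap]
      rw [P.comm w.d u.d v.a, P.comm v.d u.d w.a, P.comm w.d v.d u.a]
      grind
    · simp only [br_a, add_b, br_b, br_r, br_x, br_d, map_add, map_zero, Derivation.leibniz,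
        Derivation.zero_apply, smul_eq_mul, Derivation.map_smul, Algebra.smul_def, map_mul,
        D_one, Derivation.map_algebraMap]
      rw [P.comm w.d u.d v.b, P.comm v.d u.d w.b, P.comm w.d v.d u.b]
      grind
    · simp only [br_r, add_r, br_x, br_y, br_d, map_add, map_zero, Derivation.leibniz,
        Derivation.zero_apply, smul_eq_mul, Derivation.map_smul, Algebra.smul_def, map_mul,
        D_one, Derivation.map_algebraMap]
      rw [P.comm w.d u.d v.r, P.comm v.d u.d w.r, P.comm w.d v.d u.r]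
      grind
    all_goals simp

noncomputable instance : LieAlgebra (ZMod 2) (Heis P) where
  lie_smul c u v := by
    apply ext'
    · simp only [br_z, smul_z, smul_a, smul_b, mul_smul_comm, ← smul_add, map_smul, smul_eq_mul]
    · simp only [br_a, smul_a, smul_b, smul_r, smul_y, smul_d, map_smul, Derivation.smul_apply,
        mul_smul_comm, smul_mul_assoc, smul_add, mul_smul, smul_comm c,
        Derivation.map_smul (P.D u.d)]
    · simp only [br_b, smul_a, smul_b, smul_r, smul_x, smul_d, map_smul, Derivation.smul_apply,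
        mul_smul_comm, smul_mul_assoc, smul_add, mul_smul, smul_comm c,
        Derivation.map_smul (P.D u.d)]
    · simp only [br_r, smul_r, smul_x, smul_y, smul_d, map_smul, Derivation.smul_apply,
        smul_add, add_smul, mul_smul, smul_comm c, Derivation.map_smul (P.D u.d)]
    all_goals simp

end Heis

end Pool.Agent.helper47
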