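import Mathlib
import Pool.Agent.helper47.HeisLie

set_option autoImplicit false

namespace Pool.Agent.helper47

/-- `HData` together with the submodules used to cut down the algebra, and the vanishing
property of the functional. -/
structure HChain extends HData where
  /-- the submodule in which the `r`-components lie -/
  S : Submodule (ZMod 2) T
  /-- the submodule that contains the derivatives of the elements of `S` -/
  W : Submodule (ZMod 2) T
  one_mem : (1 : T) ∈ S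
  D_S : ∀ d, ∀ s ∈ S, D d s ∈ W
  W_le : W ≤ S
  /-- the length of the chain -/
  k : ℕ
  vanish : ∀ (ρ α β : T) (l l' : List (ι → ZMod 2)), α ∈ W → β ∈ W → l.length + l'.length < k →
    Θ (ρ * (α ^ 2 * l.foldr (fun d t => D d t) α) * (β ^ 2 * l'.foldr (fun d t => D d t) β)) = 0

namespace HChain

variable (P : HChain)

/-- iterated derivative -/
noncomputable def iter (l : List (P.ι → ZMod 2)) (t : P.T) : P.T := l.foldr (fun d t => P.D d t) t

/-- the submodules of the chain -/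
def M (j : ℕ) : Submodule (ZMod 2) P.T :=
  Submodule.span (ZMod 2) {t | ∃ (ρ α : P.T) (l : List (P.ι → ZMod 2)), α ∈ P.W ∧ l.length ≤ j ∧
    t = ρ * (α ^ 2 * P.iter l α)}

lemma M_mono {i j : ℕ} (h : i ≤ j) : P.M i ≤ P.M j := by
  apply Submodule.span_mono
  rintro t ⟨ρ, α, l, h1, h2, h3⟩
  exact ⟨ρ, α, l, h1, h2.trans h, h3⟩

lemma M_mul {j : ℕ} {t : P.T} (ht : t ∈ P.M j) (s : P.T) : t * s ∈ P.M j := by
  induction ht using Submodule.span_induction with
  | mem t ht =>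
    obtain ⟨ρ, α, l, h1, h2, h3⟩ := ht
    apply Submodule.subset_span
    refine ⟨ρ * s, α, l, h1, h2, ?_⟩
    rw [h3]; ring
  | zero => simp
  | add t t' _ _ h1 h2 => rw [add_mul]; exact Submodule.add_mem _ h1 h2
  | smul c t _ h => rw [smul_mul_assoc]; exact Submodule.smul_mem _ _ h

lemma M_D {j : ℕ} {t : P.T} (ht : t ∈ P.M j) (d : P.ι → ZMod 2) : P.D d t ∈ P.M (j + 1) := by
  induction ht using Submodule.span_induction with
  | mem t ht =>
    obtain ⟨ρ, α, l, h1, h2, h3⟩ := ht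
    have e2 : P.D d (α ^ 2) = 0 := by
      rw [pow_two, Derivation.leibniz]
      have h2 := Heis.two_T P.toHData
      simp only [smul_eq_mul]
      linear_combination (α * P.D d α) * h2
    have e1 : P.D d t = (P.D d ρ) * (α ^ 2 * P.iter l α) + ρ * (α ^ 2 * P.iter (d :: l) α) := by
      rw [h3, Derivation.leibniz, Derivation.leibniz, e2]
      simp only [smul_eq_mul, mul_zero, add_zero, iter, List.foldr_cons]
      ring
    rw [e1]
    apply Submodule.add_mem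
    · apply Submodule.subset_span
      exact ⟨_, α, l, h1, by omega, rfl⟩
    · apply Submodule.subset_span
      exact ⟨_, α, d :: l, h1, by simp [h2], rfl⟩
  | zero => simp
  | add t t' _ _ h1 h2 => rw [map_add]; exact Submodule.add_mem _ h1 h2
  | smul c t _ h => rw [Derivation.map_smul]; exact Submodule.smul_mem _ _ h

lemma M_pair {i j : ℕ} (hij : i + j < P.k) {s t : P.T} (hs : s ∈ P.M i) (ht : t ∈ P.M j) :
    P.Θ (s * t) = 0 := by
  induction hs using Submodule.span_induction with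
  | mem s hs =>
    obtain ⟨ρ, α, l, h1, h2, h3⟩ := hs
    induction ht using Submodule.span_induction with
    | mem t ht =>
      obtain ⟨σ, β, l', h1', h2', h3'⟩ := ht
      have := P.vanish (ρ * σ) α β l l' h1 h1' (by omega)
      rw [← this, h3, h3']
      congr 1
      simp only [iter]
      ring
    | zero => simp
    | add t t' _ _ h1 h2 => rw [mul_add, map_add, h1, h2, add_zero]
    | smul c t _ h => rw [mul_smul_comm, map_smul, h, smul_zero]
  | zero => simp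
  | add t t' _ _ h1 h2 => rw [add_mul, map_add, h1, h2, add_zero]
  | smul c t _ h => rw [smul_mul_assoc, map_smul, h, smul_zero]

/-- the subspaces of the Lie algebra belonging to the chain -/
def G (j : ℕ) : Submodule (ZMod 2) (Heis P.toHData) where
  carrier := {u | u.a ∈ P.M j ∧ u.b ∈ P.M j ∧ u.r = 0 ∧ u.x = 0 ∧ u.y = 0 ∧ u.d = 0}
  add_mem' := by
    rintro u v ⟨h1, h2, h3, h4, h5, h6⟩ ⟨h1', h2', h3', h4', h5', h6'⟩
    refine ⟨?_, ?_, ?_, ?_, ?_, ?_⟩
    · exact Submodule.add_mem _ h1 h1'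
    · exact Submodule.add_mem _ h2 h2'
    · simp [h3, h3']
    · simp [h4, h4']
    · simp [h5, h5']
    · simp [h6, h6']
  zero_mem' := by
    refine ⟨?_, ?_, ?_, ?_, ?_, ?_⟩ <;> simp
  smul_mem' := by
    rintro c u ⟨h1, h2, h3, h4, h5, h6⟩
    refine ⟨?_, ?_, ?_, ?_, ?_, ?_⟩
    · exact Submodule.smul_mem _ _ h1
    · exact Submodule.smul_mem _ _ h2
    · simp [h3]
    · simp [h4]
    · simp [h5]
    · simp [h6]

lemma G_mono {i j : ℕ} (h : i ≤ j) : P.G i ≤ P.G j := by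
  rintro u ⟨h1, h2, h3⟩
  exact ⟨P.M_mono h h1, P.M_mono h h2, h3⟩

lemma G_lie {j : ℕ} {u : Heis P.toHData} (hu : u ∈ P.G j) (v : Heis P.toHData) :
    ⁅u, v⁆ ∈ P.G (j + 1) := by
  obtain ⟨h1, h2, h3, h4, h5, h6⟩ := hu
  refine ⟨?_, ?_, ?_, ?_, ?_, ?_⟩
  · simp only [Heis.br_a, h3, h5, h6, map_zero, Derivation.zero_apply, mul_zero, zero_smul,
      add_zero]
    exact Submodule.add_mem _ (Submodule.add_mem _ (P.M_mono (Nat.le_succ j) (P.M_mul h1 _))
      (P.M_D h1 _)) (Submodule.smul_mem _ _ (P.M_mono (Nat.le_succ j) h2))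
  · simp only [Heis.br_b, h3, h4, h6, map_zero, Derivation.zero_apply, mul_zero, zero_smul,
      add_zero]
    exact Submodule.add_mem _ (Submodule.add_mem _ (P.M_mono (Nat.le_succ j) (P.M_mul h2 _))
      (P.M_D h2 _)) (Submodule.smul_mem _ _ (P.M_mono (Nat.le_succ j) h1))
  · simp [h3, h4, h5, h6]
  · simp
  · simp
  · simp

lemma G_pair {i j : ℕ} (hij : i + j < P.k) {u v : Heis P.toHData} (hu : u ∈ P.G i)
    (hv : v ∈ P.G j) : ⁅u, v⁆ = 0 := by
  obtain ⟨h1, h2, h3, h4, h5, h6⟩ := hu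
  obtain ⟨h1', h2', h3', h4', h5', h6'⟩ := hv
  apply Heis.ext'
  · simp only [Heis.br_z, map_add, P.M_pair hij h1 h2', P.M_pair hij h2 h1', Heis.zero_z,
      add_zero]
  · simp [h3, h4, h5, h6, h3', h4', h5', h6']
  · simp [h3, h4, h5, h6, h3', h4', h5', h6']
  · simp [h3, h4, h5, h6, h3', h4', h5', h6']
  all_goals simp

/-- the Lie subalgebra given by the condition `r ∈ S` -/
noncomputable def K : LieSubalgebra (ZMod 2) (Heis P.toHData) where
  carrier := {u | u.r ∈ P.S}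
  add_mem' := by
    intro u v hu hv
    exact Submodule.add_mem _ hu hv
  zero_mem' := Submodule.zero_mem _
  smul_mem' := by
    intro c u hu
    exact Submodule.smul_mem _ _ hu
  lie_mem' := by
    intro u v hu hv
    change (⁅u, v⁆ : Heis P.toHData).r ∈ P.S
    rw [Heis.br_r]
    exact Submodule.add_mem _ (Submodule.add_mem _ (P.W_le (P.D_S _ _ hu))
      (P.W_le (P.D_S _ _ hv))) (Submodule.smul_mem _ _ P.one_mem)

end HChain

/-- the value of the identity `f` in a Lie ring -/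
def fval {L : Type} [LieRing L] (y₁ y₂ y₃ y₄ x₁ x₂ x₃ : L) : L :=
  ⁅⁅⁅⁅⁅y₁, y₂⁆, ⁅y₃, y₄⁆⁆, ⁅⁅x₁, x₂⁆, x₃⁆⁆, ⁅⁅x₁, x₂⁆, x₃⁆⁆, ⁅⁅x₁, x₂⁆, x₃⁆⁆

/-- elements of the Heisenberg part -/
def Heis.IsN {P : HData} (u : Heis P) : Prop := u.r = 0 ∧ u.x = 0 ∧ u.y = 0 ∧ u.d = 0

/-- elements without `x`, `y`, `d` components -/
def Heis.IsR {P : HData} (u : Heis P) : Prop := u.x = 0 ∧ u.y = 0 ∧ u.d = 0

lemma Heis.isR_lie {P : HData} (u v : Heis P) : Heis.IsR ⁅u, v⁆ := ⟨rfl, rfl, rfl⟩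

lemma Heis.isN_lie {P : HData} {u v : Heis P} (hu : Heis.IsR u) (hv : Heis.IsR v) :
    Heis.IsN ⁅u, v⁆ := by
  obtain ⟨hx, hy, hd⟩ := hu
  obtain ⟨hx', hy', hd'⟩ := hv
  refine ⟨?_, rfl, rfl, rfl⟩
  rw [Heis.br_r, hx, hy, hd, hd']
  simp

lemma Heis.isN_step {P : HData} {u q : Heis P} (hu : Heis.IsN u) (hq : Heis.IsR q) :
    Heis.IsN ⁅u, q⁆ ∧ (⁅u, q⁆ : Heis P).a = u.a * q.r ∧ (⁅u, q⁆ : Heis P).b = u.b * q.r := by
  obtain ⟨hr, hx, hy, hd⟩ := hu
  obtain ⟨hx', hy', hd'⟩ := hq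
  refine ⟨⟨?_, rfl, rfl, rfl⟩, ?_, ?_⟩
  · rw [Heis.br_r, hr, hx, hy, hd, hd']
    simp
  · rw [Heis.br_a, hr, hd, hd', hy', hy]
    simp
  · rw [Heis.br_b, hr, hd, hd', hx', hx]
    simp

namespace HChain

variable (P : HChain)

lemma fval_mem (y₁ y₂ y₃ y₄ x₁ x₂ x₃ : Heis P.toHData) (h₁ : x₁ ∈ P.K) (h₂ : x₂ ∈ P.K) :
    fval y₁ y₂ y₃ y₄ x₁ x₂ x₃ ∈ P.G 0 := by
  have hpr : (⁅x₁, x₂⁆ : Heis P.toHData).r ∈ P.S := P.K.lie_mem h₁ h₂
  unfold fval
  have hpR := Heis.isR_lie x₁ x₂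
  generalize (⁅x₁, x₂⁆ : Heis P.toHData) = p at hpr hpR ⊢
  have hqW : (⁅p, x₃⁆ : Heis P.toHData).r ∈ P.W := by
    obtain ⟨hx, hy, hd⟩ := hpR
    rw [Heis.br_r, hx, hy, hd]
    have := P.D_S x₃.d _ hpr
    simpa using this
  have hqR := Heis.isR_lie p x₃
  generalize (⁅p, x₃⁆ : Heis P.toHData) = q at hqW hqR ⊢
  have h0 := Heis.isN_lie (Heis.isR_lie y₁ y₂) (Heis.isR_lie y₃ y₄)
  generalize (⁅⁅y₁, y₂⁆, ⁅y₃, y₄⁆⁆ : Heis P.toHData) = u₀ at h0 ⊢
  obtain ⟨n1, a1, b1⟩ := Heis.isN_step h0 hqR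
  obtain ⟨n2, a2, b2⟩ := Heis.isN_step n1 hqR
  obtain ⟨n3, a3, b3⟩ := Heis.isN_step n2 hqR
  refine ⟨?_, ?_, n3⟩
  · rw [a3, a2, a1]
    apply Submodule.subset_span
    refine ⟨u₀.a, q.r, [], hqW, le_rfl, ?_⟩
    simp only [iter, List.foldr_nil]
    ring
  · rw [b3, b2, b1]
    apply Submodule.subset_span
    refine ⟨u₀.b, q.r, [], hqW, le_rfl, ?_⟩
    simp only [iter, List.foldr_nil]
    ring

end HChain

end Pool.Agent.helper47
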