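import Mathlib

set_option autoImplicit false

namespace Pool.Agent.helper47

section
variable {F : Type} [Field F]

lemma map_lift {L L' : Type} [LieRing L] [LieAlgebra F L] [LieRing L'] [LieAlgebra F L']
    (g : L →ₗ⁅F⁆ L') (φ : ℕ → L) (a : FreeLieAlgebra F ℕ) :
    g (FreeLieAlgebra.lift F φ a) = FreeLieAlgebra.lift F (g ∘ φ) a := by
  have h : g.comp (FreeLieAlgebra.lift F φ) = FreeLieAlgebra.lift F (g ∘ φ) := by
    apply FreeLieAlgebra.hom_ext
    intro n
    simp [FreeLieAlgebra.lift_of_apply]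
  exact congrArg (fun k => k a) h

/-- the quotient map as a Lie algebra morphism -/
def qmk {L : Type} [LieRing L] [LieAlgebra F L] (I : LieIdeal F L) : L →ₗ⁅F⁆ L ⧸ I :=
  { (LieSubmodule.Quotient.mk' I : L →ₗ[F] L ⧸ I) with
    map_lie' := by
      intro x y
      exact LieSubmodule.Quotient.mk_bracket I x y }

lemma qmk_surj {L : Type} [LieRing L] [LieAlgebra F L] (I : LieIdeal F L) :
    Function.Surjective (qmk I) := LieSubmodule.Quotient.surjective_mk' I

lemma qmk_eq_zero {L : Type} [LieRing L] [LieAlgebra F L] (I : LieIdeal F L) (x : L) :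
    qmk I x = 0 ↔ x ∈ I := LieSubmodule.Quotient.mk_eq_zero I

/-- the set of values of an identity -/
def vals (f : FreeLieAlgebra F ℕ) (L : Type) [LieRing L] [LieAlgebra F L] : Set L :=
  {u | ∃ φ : ℕ → L, u = FreeLieAlgebra.lift F φ f}

/-- the verbal ideal of an identity -/
def verbal (f : FreeLieAlgebra F ℕ) (L : Type) [LieRing L] [LieAlgebra F L] : LieIdeal F L :=
  LieSubmodule.lieSpan F L (vals f L)

lemma lift_mem_verbal (f : FreeLieAlgebra F ℕ) {L : Type} [LieRing L] [LieAlgebra F L]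
    (φ : ℕ → L) : FreeLieAlgebra.lift F φ f ∈ verbal f L :=
  LieSubmodule.subset_lieSpan ⟨φ, rfl⟩

/-- The quotient by the verbal ideal satisfies the identity. -/
lemma quot_verbal (f : FreeLieAlgebra F ℕ) {L : Type} [LieRing L] [LieAlgebra F L]
    (I : LieIdeal F L) (hI : verbal f L ≤ I) (φ : ℕ → L ⧸ I) :
    FreeLieAlgebra.lift F φ f = 0 := by
  choose ψ hψ using fun n => qmk_surj I (φ n)
  have h1 : φ = qmk I ∘ ψ := by
    funext n
    exact (hψ n).symm
  rw [h1, ← map_lift, qmk_eq_zero]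
  exact hI (lift_mem_verbal f ψ)

/-- Under a surjection every element of the verbal ideal lifts to the verbal ideal. -/
lemma verbal_lift (f : FreeLieAlgebra F ℕ) {L L' : Type} [LieRing L] [LieAlgebra F L]
    [LieRing L'] [LieAlgebra F L'] (g : L →ₗ⁅F⁆ L') (hg : Function.Surjective g) (u : L')
    (hu : u ∈ verbal f L') : ∃ v ∈ verbal f L, g v = u := by
  induction hu using LieSubmodule.lieSpan_induction with
  | mem u hu =>
    obtain ⟨φ, rfl⟩ := hu
    choose ψ hψ using fun n => hg (φ n)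
    refine ⟨_, lift_mem_verbal f ψ, ?_⟩
    rw [map_lift]
    congr 2
    funext n
    exact hψ n
  | zero => exact ⟨0, LieSubmodule.zero_mem _, map_zero g⟩
  | add u u' _ _ h1 h2 =>
    obtain ⟨v, hv, rfl⟩ := h1
    obtain ⟨v', hv', rfl⟩ := h2
    exact ⟨v + v', add_mem hv hv', map_add g v v'⟩
  | smul c u _ h1 =>
    obtain ⟨v, hv, rfl⟩ := h1
    exact ⟨c • v, SMulMemClass.smul_mem _ hv, map_smul g c v⟩
  | lie x u _ h1 =>
    obtain ⟨v, hv, rfl⟩ := h1
    obtain ⟨w, rfl⟩ := hg x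
    exact ⟨⁅w, v⁆, LieSubmodule.lie_mem _ hv, LieHom.map_lie g w v⟩

/-- the commutativity identity -/
noncomputable def comm2 : FreeLieAlgebra F ℕ := ⁅FreeLieAlgebra.of F 0, FreeLieAlgebra.of F 1⁆

lemma lift_comm2 {L : Type} [LieRing L] [LieAlgebra F L] (φ : ℕ → L) :
    FreeLieAlgebra.lift F φ comm2 = ⁅φ 0, φ 1⁆ := by
  simp [comm2, FreeLieAlgebra.lift_of_apply]

/-- the relatively free algebra: it has an abelian ideal whose quotient satisfies `f` -/
lemma free_quot (f : FreeLieAlgebra F ℕ) :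
    ∃ I : LieIdeal F (FreeLieAlgebra F ℕ ⧸ ⁅verbal f (FreeLieAlgebra F ℕ),
        verbal f (FreeLieAlgebra F ℕ)⁆),
      (∀ φ : ℕ → I, FreeLieAlgebra.lift F φ comm2 = 0) ∧
      (∀ φ : ℕ → (FreeLieAlgebra F ℕ ⧸ ⁅verbal f (FreeLieAlgebra F ℕ),
        verbal f (FreeLieAlgebra F ℕ)⁆) ⧸ I, FreeLieAlgebra.lift F φ f = 0) := by
  refine ⟨verbal f _, ?_, quot_verbal f _ le_rfl⟩
  intro φ
  rw [lift_comm2]
  apply Subtype.ext
  rw [LieIdeal.coe_bracket_of_module]
  have key : ∀ u v : (FreeLieAlgebra F ℕ ⧸ ⁅verbal f (FreeLieAlgebra F ℕ),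
      verbal f (FreeLieAlgebra F ℕ)⁆), u ∈ verbal f _ → v ∈ verbal f _ → ⁅u, v⁆ = 0 := by
    intro u v hu hv
    obtain ⟨u', hu', rfl⟩ := verbal_lift f (qmk _) (qmk_surj _) u hu
    obtain ⟨v', hv', rfl⟩ := verbal_lift f (qmk _) (qmk_surj _) v hv
    rw [← LieHom.map_lie, qmk_eq_zero]
    exact LieSubmodule.lie_mem_lie hu' hv'
  exact key _ _ (φ 0).2 (φ 1).2

end

end Pool.Agent.helper47
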