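import Mathlib
import Pool.Agent.helper47.HeisChain
import Pool.Agent.helper47.ProdVar

set_option autoImplicit false

namespace Pool.Agent.helper47

/-- the identity `f` -/
noncomputable def fid : FreeLieAlgebra (ZMod 2) ℕ :=
  fval (FreeLieAlgebra.of (ZMod 2) 0) (FreeLieAlgebra.of (ZMod 2) 1)
    (FreeLieAlgebra.of (ZMod 2) 2) (FreeLieAlgebra.of (ZMod 2) 3)
    (FreeLieAlgebra.of (ZMod 2) 4) (FreeLieAlgebra.of (ZMod 2) 5)
    (FreeLieAlgebra.of (ZMod 2) 6)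

lemma lift_fid {L : Type} [LieRing L] [LieAlgebra (ZMod 2) L] (φ : ℕ → L) :
    FreeLieAlgebra.lift (ZMod 2) φ fid =
      fval (φ 0) (φ 1) (φ 2) (φ 3) (φ 4) (φ 5) (φ 6) := by
  simp only [fid, fval, LieHom.map_lie, FreeLieAlgebra.lift_of_apply]

lemma fval_vals {L : Type} [LieRing L] [LieAlgebra (ZMod 2) L] (y₁ y₂ y₃ y₄ x₁ x₂ x₃ : L) :
    fval y₁ y₂ y₃ y₄ x₁ x₂ x₃ ∈ vals fid L := by
  let φ : ℕ → L := fun n => match n with
    | 0 => y₁ | 1 => y₂ | 2 => y₃ | 3 => y₄ | 4 => x₁ | 5 => x₂ | _ => x₃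
  exact ⟨φ, (lift_fid φ).symm⟩

lemma coe_fval {L : Type} [LieRing L] [LieAlgebra (ZMod 2) L] (K : LieSubalgebra (ZMod 2) L)
    (y₁ y₂ y₃ y₄ x₁ x₂ x₃ : K) :
    ((fval y₁ y₂ y₃ y₄ x₁ x₂ x₃ : K) : L) =
      fval (y₁ : L) (y₂ : L) (y₃ : L) (y₄ : L) (x₁ : L) (x₂ : L) (x₃ : L) := by
  simp only [fval, LieSubalgebra.coe_bracket]

/-- the elements of the verbal ideal have bounded level in all chain algebras -/
lemma verbal_level (c : FreeLieAlgebra (ZMod 2) ℕ)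
    (hc : c ∈ verbal fid (FreeLieAlgebra (ZMod 2) ℕ)) :
    ∃ i : ℕ, ∀ (P : HChain) (φ : ℕ → P.K),
      ((FreeLieAlgebra.lift (ZMod 2) φ c : P.K) : Heis P.toHData) ∈ P.G i := by
  induction hc using LieSubmodule.lieSpan_induction with
  | mem u hu =>
    obtain ⟨ψ, rfl⟩ := hu
    refine ⟨0, fun P φ => ?_⟩
    rw [map_lift, lift_fid]
    rw [coe_fval]
    exact P.fval_mem _ _ _ _ _ _ _ (SetLike.coe_mem _) (SetLike.coe_mem _)
  | zero => exact ⟨0, fun P φ => by rw [map_zero]; exact Submodule.zero_mem _⟩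
  | add u v _ _ h1 h2 =>
    obtain ⟨i, hi⟩ := h1
    obtain ⟨j, hj⟩ := h2
    refine ⟨max i j, fun P φ => ?_⟩
    rw [map_add]
    exact Submodule.add_mem _ (P.G_mono (le_max_left i j) (hi P φ))
      (P.G_mono (le_max_right i j) (hj P φ))
  | smul a u _ h1 =>
    obtain ⟨i, hi⟩ := h1
    refine ⟨i, fun P φ => ?_⟩
    rw [map_smul]
    exact Submodule.smul_mem _ _ (hi P φ)
  | lie x u _ h1 =>
    obtain ⟨i, hi⟩ := h1
    refine ⟨i + 1, fun P φ => ?_⟩
    rw [LieHom.map_lie, ← lie_skew]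
    exact Submodule.neg_mem _ (P.G_lie (hi P φ) _)

/-- the elements of the commutator of the verbal ideal vanish in all long chain algebras -/
lemma comm_level (c : FreeLieAlgebra (ZMod 2) ℕ)
    (hc : c ∈ ⁅verbal fid (FreeLieAlgebra (ZMod 2) ℕ), verbal fid (FreeLieAlgebra (ZMod 2) ℕ)⁆) :
    ∃ i : ℕ, ∀ (P : HChain), i ≤ P.k → ∀ (φ : ℕ → P.K),
      FreeLieAlgebra.lift (ZMod 2) φ c = 0 := by
  rw [← LieSubmodule.mem_toSubmodule, LieSubmodule.lieIdeal_oper_eq_linear_span'] at hc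
  induction hc using Submodule.span_induction with
  | mem u hu =>
    obtain ⟨x, hx, y, hy, rfl⟩ := hu
    obtain ⟨i, hi⟩ := verbal_level x hx
    obtain ⟨j, hj⟩ := verbal_level y hy
    refine ⟨i + j + 1, fun P hP φ => ?_⟩
    rw [LieHom.map_lie]
    apply Subtype.ext
    exact P.G_pair (by omega) (hi P φ) (hj P φ)
  | zero => exact ⟨0, fun P _ φ => map_zero _⟩
  | add u v _ _ h1 h2 =>
    obtain ⟨i, hi⟩ := h1
    obtain ⟨j, hj⟩ := h2
    refine ⟨max i j, fun P hP φ => ?_⟩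
    rw [map_add, hi P (le_trans (le_max_left i j) hP) φ, hj P (le_trans (le_max_right i j) hP) φ,
      add_zero]
  | smul a u _ h1 =>
    obtain ⟨i, hi⟩ := h1
    refine ⟨i, fun P hP φ => ?_⟩
    rw [map_smul, hi P hP φ, smul_zero]

/-- a long commutator of two values of `f` that does not vanish -/
def HChain.Bad (P : HChain) : Prop :=
  ∃ (u v : P.K), u ∈ vals fid P.K ∧ v ∈ vals fid P.K ∧ ∃ l : List P.K,
    ⁅l.foldl (fun p q => ⁅p, q⁆) u, v⁆ ≠ 0

lemma Bad.not_prod {P : HChain} (hP : P.Bad) :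
    ¬ ∃ I : LieIdeal (ZMod 2) P.K,
      (∀ φ : ℕ → I, FreeLieAlgebra.lift (ZMod 2) φ comm2 = 0) ∧
      (∀ φ : ℕ → P.K ⧸ I, FreeLieAlgebra.lift (ZMod 2) φ fid = 0) := by
  rintro ⟨I, h1, h2⟩
  obtain ⟨u, v, hu, hv, l, hne⟩ := hP
  apply hne
  have hmem : ∀ w : P.K, w ∈ vals fid P.K → w ∈ I := by
    rintro w ⟨φ, rfl⟩
    rw [← qmk_eq_zero, map_lift]
    exact h2 _
  have hfold : ∀ (l : List P.K) (w : P.K), w ∈ I → l.foldl (fun p q => ⁅p, q⁆) w ∈ I := by
    intro l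
    induction l with
    | nil => intro w hw; exact hw
    | cons q l ih =>
      intro w hw
      apply ih
      exact lie_mem_left _ _ I _ _ hw
  have hu' := hfold l u (hmem u hu)
  have hv' := hmem v hv
  have := h1 (fun n => match n with
    | 0 => ⟨_, hu'⟩ | _ => ⟨_, hv'⟩)
  rw [lift_comm2] at this
  have h3 := congrArg Subtype.val this
  exact h3

/-- The conclusion: if there are chain algebras of every length, the product of the variety of
abelian algebras and the variety defined by `f` has no finite basis. -/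
theorem main_of_chains (hchain : ∀ k : ℕ, ∃ P : HChain, k ≤ P.k ∧ P.Bad)
    (C : Finset (FreeLieAlgebra (ZMod 2) ℕ)) :
    ∃ (L : Type) (_ : LieRing L) (_ : LieAlgebra (ZMod 2) L),
        ¬ ((∃ I : LieIdeal (ZMod 2) L,
              (∀ φ : ℕ → I, FreeLieAlgebra.lift (ZMod 2) φ comm2 = 0) ∧
              (∀ φ : ℕ → L ⧸ I, FreeLieAlgebra.lift (ZMod 2) φ fid = 0)) ↔
            (∀ c ∈ C, ∀ φ : ℕ → L, FreeLieAlgebra.lift (ZMod 2) φ c = 0)) := by
  by_contra hcon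
  push Not at hcon
  have h0 := (hcon (FreeLieAlgebra (ZMod 2) ℕ ⧸ ⁅verbal fid (FreeLieAlgebra (ZMod 2) ℕ),
        verbal fid (FreeLieAlgebra (ZMod 2) ℕ)⁆) inferInstance inferInstance).1 (free_quot fid)
  have h1 : ∀ c ∈ C, ∃ i : ℕ, ∀ (P : HChain), i ≤ P.k → ∀ (φ : ℕ → P.K),
      FreeLieAlgebra.lift (ZMod 2) φ c = 0 := by
    intro c hc
    apply comm_level
    have h2 := h0 c hc (qmk _ ∘ FreeLieAlgebra.of (ZMod 2))
    rw [← map_lift, qmk_eq_zero] at h2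
    have h3 : FreeLieAlgebra.lift (ZMod 2) (FreeLieAlgebra.of (ZMod 2) : ℕ → _) c = c := by
      have : FreeLieAlgebra.lift (ZMod 2) (FreeLieAlgebra.of (ZMod 2) : ℕ → _) =
          (LieHom.id : FreeLieAlgebra (ZMod 2) ℕ →ₗ⁅ZMod 2⁆ FreeLieAlgebra (ZMod 2) ℕ) := by
        apply FreeLieAlgebra.hom_ext
        intro n
        simp [FreeLieAlgebra.lift_of_apply]
      rw [this]
      rfl
    rwa [h3] at h2
  choose! g hg using h1
  obtain ⟨P, hPk, hPbad⟩ := hchain (C.sup g)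
  have h4 := (hcon P.K inferInstance inferInstance).2 (by
    intro c hc φ
    exact hg c hc P (le_trans (Finset.le_sup (f := g) hc) hPk) φ)
  exact Bad.not_prod hPbad h4

end Pool.Agent.helper47
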