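import Mathlib
import Pool.Agent.helper47.ProdMain

set_option autoImplicit false

namespace Pool.Agent.helper47

open MvPolynomial

section Concrete

variable (k : ℕ)

/-- the variables -/
abbrev Vr : Type := Bool × Finset (Fin k)

/-- the polynomial ring -/
abbrev TT : Type := MvPolynomial (Vr k) (ZMod 2)

/-- images of the variables under the derivations -/
noncomputable def dX : Option (Fin k) → Vr k → TT k
  | none, v => X v
  | some i, v => if i ∈ v.2 then 0 else X (v.1, insert i v.2)

/-- the basic derivations -/
noncomputable def der (o : Option (Fin k)) : Derivation (ZMod 2) (TT k) (TT k) :=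
  mkDerivation (ZMod 2) (dX k o)

lemma der_X (o : Option (Fin k)) (v : Vr k) : der k o (X v) = dX k o v :=
  mkDerivation_X _ _ _

/-- all derivations used -/
noncomputable def DD : (Option (Fin k) → ZMod 2) →ₗ[ZMod 2] Derivation (ZMod 2) (TT k) (TT k) :=
  Fintype.linearCombination (ZMod 2) (der k)

lemma DD_apply (d : Option (Fin k) → ZMod 2) (t : TT k) :
    DD k d t = ∑ o, d o • der k o t := by
  simp only [DD, Fintype.linearCombination_apply]
  have h := map_sum (Derivation.coeFnAddMonoidHom (R := ZMod 2) (A := TT k) (M := TT k))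
    (fun o => d o • der k o) Finset.univ
  have h2 := congrFun h t
  rw [Finset.sum_apply] at h2
  exact h2

lemma der_dX (o : Option (Fin k)) (i : Fin k) (v : Vr k) :
    der k (some i) (dX k o v) = der k o (dX k (some i) v) := by
  cases o with
  | none =>
    simp only [dX, der_X]
    split_ifs with h
    · simp
    · simp [der_X, dX]
  | some j =>
    simp only [dX]
    by_cases h : j ∈ v.2 <;> by_cases h' : i ∈ v.2
    · simp [h, h']
    · simp [h, h', der_X, dX]
    · simp [h, h', der_X, dX]
    · by_cases hij : i = j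
      · subst hij
        simp [h, der_X, dX]
      · have hji : j ≠ i := fun h => hij h.symm
        simp [h, h', der_X, dX, hij, hji, Finset.insert_comm i j v.2]

lemma der_comm (o o' : Option (Fin k)) (t : TT k) :
    der k o (der k o' t) = der k o' (der k o t) := by
  have h : ⁅der k o, der k o'⁆ = 0 := by
    apply derivation_ext
    intro v
    rw [Derivation.commutator_apply, Derivation.zero_apply, der_X, der_X, sub_eq_zero]
    cases o with
    | none =>
      cases o' with
      | none => rfl
      | some i =>
        rw [der_dX]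
    | some i =>
      rw [der_dX]
  have h2 := congrArg (fun D => D t) h
  simp only [Derivation.commutator_apply, Derivation.zero_apply] at h2
  exact sub_eq_zero.1 h2

lemma DD_comm (d d' : Option (Fin k) → ZMod 2) (t : TT k) :
    DD k d (DD k d' t) = DD k d' (DD k d t) := by
  simp only [DD_apply, map_sum, Derivation.map_smul, Finset.smul_sum]
  rw [Finset.sum_comm]
  apply Finset.sum_congr rfl
  intro o _
  apply Finset.sum_congr rfl
  intro o' _
  rw [der_comm, smul_comm]

variable {k}

/-- number of variables of type `b` in a monomial -/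
noncomputable def nb (b : Bool) (s : Vr k →₀ ℕ) : ℕ :=
  Finsupp.weight (fun v : Vr k => if v.1 = b then 1 else 0) s

/-- number of variables of type `b` containing `i` in a monomial -/
noncomputable def pb (b : Bool) (i : Fin k) (s : Vr k →₀ ℕ) : ℕ :=
  Finsupp.weight (fun v : Vr k => if v.1 = b ∧ i ∈ v.2 then 1 else 0) s

/-- number of variables of type `b` not containing `i` in a monomial -/
noncomputable def cb (b : Bool) (i : Fin k) (s : Vr k →₀ ℕ) : ℕ :=
  Finsupp.weight (fun v : Vr k => if v.1 = b ∧ i ∉ v.2 then 1 else 0) s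

lemma cb_add_pb (b : Bool) (i : Fin k) (s : Vr k →₀ ℕ) : cb b i s + pb b i s = nb b s := by
  simp only [cb, pb, nb, Finsupp.weight_apply]
  rw [← Finsupp.sum_add]
  apply Finsupp.sum_congr
  intro v _
  by_cases h : v.1 = b <;> by_cases h' : i ∈ v.2 <;> simp [h, h']

/-- the local condition -/
def good (p q : ℕ) : Prop := (p + q = 1 ∨ p + q = 2) ∧ (p = 0 ∨ q = 0)

instance (p q : ℕ) : Decidable (good p q) := by unfold good; infer_instance

/-- the condition on monomials -/
def cond (s : Vr k →₀ ℕ) : Prop :=
  nb false s = 3 ∧ nb true s = 3 ∧ ∀ i : Fin k, good (pb false i s) (pb true i s)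

open Classical in
/-- the functional -/
noncomputable def Th (k : ℕ) : TT k →ₗ[ZMod 2] ZMod 2 :=
  (basisMonomials (Vr k) (ZMod 2)).constr (ZMod 2) (fun s => if cond s then (1 : ZMod 2) else 0)

open Classical in
lemma Th_one (s : Vr k →₀ ℕ) : Th k (monomial s 1) = if cond s then 1 else 0 := by
  have := (basisMonomials (Vr k) (ZMod 2)).constr_basis (ZMod 2)
    (fun s => if cond s then (1 : ZMod 2) else 0) s
  rw [coe_basisMonomials] at this
  exact this

open Classical in
lemma Th_monomial (s : Vr k →₀ ℕ) (c : ZMod 2) :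
    Th k (monomial s c) = c * if cond s then 1 else 0 := by
  have : monomial s c = c • (monomial s (1 : ZMod 2) : TT k) := by
    rw [smul_monomial, smul_eq_mul, mul_one]
  rw [this, map_smul, Th_one, smul_eq_mul]

lemma nb_add (b : Bool) (s t : Vr k →₀ ℕ) : nb b (s + t) = nb b s + nb b t := map_add _ _ _

lemma pb_add (b : Bool) (i : Fin k) (s t : Vr k →₀ ℕ) :
    pb b i (s + t) = pb b i s + pb b i t := map_add _ _ _

lemma nb_single (b : Bool) (v : Vr k) (n : ℕ) :
    nb b (Finsupp.single v n) = n * (if v.1 = b then 1 else 0) := by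
  simp [nb, Finsupp.weight_apply]

lemma pb_single (b : Bool) (i : Fin k) (v : Vr k) (n : ℕ) :
    pb b i (Finsupp.single v n) = n * (if v.1 = b ∧ i ∈ v.2 then 1 else 0) := by
  simp [pb, Finsupp.weight_apply]

/-- the sum of all exponents -/
lemma sum_eq_nb (s : Vr k →₀ ℕ) : (s.sum fun _ n => n) = nb false s + nb true s := by
  simp only [nb, Finsupp.weight_apply]
  rw [← Finsupp.sum_add]
  apply Finsupp.sum_congr
  intro v _
  rcases v with ⟨b, S⟩
  cases b <;> simp

/-- the part of the condition not concerning `i` -/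
def cond' (i : Fin k) (s : Vr k →₀ ℕ) : Prop :=
  nb false s = 3 ∧ nb true s = 3 ∧ ∀ j : Fin k, j ≠ i → good (pb false j s) (pb true j s)

lemma cond_step (i : Fin k) (s : Vr k →₀ ℕ) (v : Vr k) (hv : v ∈ s.support) (hi : i ∉ v.2) :
    cond (s - Finsupp.single v 1 + Finsupp.single (v.1, insert i v.2) 1) ↔
      cond' i s ∧ good (pb false i s + (if v.1 = false then 1 else 0))
        (pb true i s + (if v.1 = true then 1 else 0)) := by
  obtain ⟨s', hs'⟩ : ∃ s', s = s' + Finsupp.single v 1 := by
    refine ⟨s - Finsupp.single v 1, ?_⟩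
    rw [tsub_add_cancel_of_le]
    rw [Finsupp.single_le_iff]
    exact Nat.one_le_iff_ne_zero.2 (Finsupp.mem_support_iff.1 hv)
  have h1 : s - Finsupp.single v 1 = s' := by rw [hs', add_tsub_cancel_right]
  rw [h1, hs']
  unfold cond cond'
  simp only [nb_add, pb_add, nb_single, pb_single]
  constructor
  · rintro ⟨h2, h3, h4⟩
    refine ⟨⟨h2, h3, fun j hj => ?_⟩, ?_⟩
    · have := h4 j
      simpa [hj] using this
    · have := h4 i
      simpa [hi] using this
  · rintro ⟨⟨h2, h3, h4⟩, h5⟩
    refine ⟨h2, h3, fun j => ?_⟩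
    by_cases hj : j = i
    · subst hj
      simpa [hi] using h5
    · have := h4 j hj
      simpa [hj] using this

open Classical in
lemma Th_der_monomial (o : Option (Fin k)) (s : Vr k →₀ ℕ) :
    Th k (der k o (monomial s 1)) = 0 := by
  rw [der, mkDerivation_monomial, one_smul, Finsupp.sum, map_sum]
  cases o with
  | none =>
    have h1 : ∀ v ∈ s.support, Th k (monomial (s - Finsupp.single v 1) ((s v : ℕ) : ZMod 2) •
        dX k none v) = ((s v : ℕ) : ZMod 2) * (if cond s then 1 else 0) := by
      intro v hv
      have h2 : s - Finsupp.single v 1 + Finsupp.single v 1 = s := by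
        rw [tsub_add_cancel_of_le]
        rw [Finsupp.single_le_iff]
        exact Nat.one_le_iff_ne_zero.2 (Finsupp.mem_support_iff.1 hv)
      simp only [dX, smul_eq_mul, X, monomial_mul, mul_one, h2, Th_monomial]
    rw [Finset.sum_congr rfl h1, ← Finset.sum_mul]
    by_cases hc : cond s
    · have h2 : ∑ v ∈ s.support, ((s v : ℕ) : ZMod 2) = 0 := by
        have h3 := sum_eq_nb s
        rw [hc.1, hc.2.1, Finsupp.sum] at h3
        rw [← Nat.cast_sum, h3]
        rfl
      rw [h2, zero_mul]
    · simp [hc]
  | some i =>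
    have h1 : ∀ v ∈ s.support, Th k (monomial (s - Finsupp.single v 1) ((s v : ℕ) : ZMod 2) •
        dX k (some i) v) = ((s v : ℕ) : ZMod 2) * (if i ∉ v.2 ∧ cond' i s ∧
          good (pb false i s + (if v.1 = false then 1 else 0))
        (pb true i s + (if v.1 = true then 1 else 0)) then 1 else 0) := by
      intro v hv
      by_cases hi : i ∈ v.2
      · simp [dX, hi]
      · simp only [dX, hi, if_false, smul_eq_mul, X, monomial_mul, mul_one, Th_monomial,
          not_false_eq_true, true_and]
        rw [if_congr (cond_step i s v hv hi) rfl rfl]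
    rw [Finset.sum_congr rfl h1]
    by_cases hc : cond' i s
    · have h2 : ∀ v : Vr k, ((s v : ℕ) : ZMod 2) * (if i ∉ v.2 ∧ cond' i s ∧
          good (pb false i s + (if v.1 = false then 1 else 0))
        (pb true i s + (if v.1 = true then 1 else 0)) then 1 else 0) =
          ((s v * (if v.1 = false ∧ i ∉ v.2 then 1 else 0) : ℕ) : ZMod 2) *
            (if good (pb false i s + 1) (pb true i s) then 1 else 0) +
          ((s v * (if v.1 = true ∧ i ∉ v.2 then 1 else 0) : ℕ) : ZMod 2) *
            (if good (pb false i s) (pb true i s + 1) then 1 else 0) := by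
        rintro ⟨b, S⟩
        by_cases hi : i ∈ S
        · simp [hi]
        · cases b <;> simp [hi, hc]
      rw [Finset.sum_congr rfl (fun v _ => h2 v), Finset.sum_add_distrib, ← Finset.sum_mul,
        ← Finset.sum_mul, ← Nat.cast_sum, ← Nat.cast_sum]
      have e1 : ∑ v ∈ s.support, (s v * (if v.1 = false ∧ i ∉ v.2 then 1 else 0)) =
          cb false i s := by
        simp only [cb, Finsupp.weight_apply, Finsupp.sum, smul_eq_mul]
      have e2 : ∑ v ∈ s.support, (s v * (if v.1 = true ∧ i ∉ v.2 then 1 else 0)) =
          cb true i s := by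
        simp only [cb, Finsupp.weight_apply, Finsupp.sum, smul_eq_mul]
      rw [e1, e2]
      have h3 := cb_add_pb false i s
      have h4 := cb_add_pb true i s
      rw [hc.1] at h3
      rw [hc.2.1] at h4
      generalize pb false i s = p at *
      generalize pb true i s = q at *
      generalize cb false i s = p' at *
      generalize cb true i s = q' at *
      have hp : p ≤ 3 := by omega
      have hq : q ≤ 3 := by omega
      have hp' : p' = 3 - p := by omega
      have hq' : q' = 3 - q := by omega
      subst hp' hq'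
      clear h1 h2 e1 e2 h3 h4 hc
      interval_cases p <;> interval_cases q <;> decide
    · simp [hc]

lemma Th_der (o : Option (Fin k)) (t : TT k) : Th k (der k o t) = 0 := by
  induction t using MvPolynomial.induction_on' with
  | monomial s c =>
    have : monomial s c = c • (monomial s (1 : ZMod 2) : TT k) := by
      rw [smul_monomial, smul_eq_mul, mul_one]
    rw [this, Derivation.map_smul, map_smul, Th_der_monomial, smul_zero]
  | add p q hp hq => rw [map_add, map_add, hp, hq, add_zero]

lemma Th_DD (d : Option (Fin k) → ZMod 2) (t : TT k) : Th k (DD k d t) = 0 := by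
  rw [DD_apply, map_sum]
  apply Finset.sum_eq_zero
  intro o _
  rw [map_smul, Th_der, smul_zero]

/-- shifted variables -/
noncomputable def sh (A : Finset (Fin k)) (v : Vr k) : TT k :=
  if Disjoint A v.2 then X (v.1, A ∪ v.2) else 0

lemma sh_empty (v : Vr k) : sh ∅ v = X v := by
  simp [sh]

lemma der_none_sh (A : Finset (Fin k)) (v : Vr k) : der k none (sh A v) = sh A v := by
  unfold sh
  split_ifs
  · rw [der_X]; rfl
  · simp

lemma der_some_sh (i : Fin k) (A : Finset (Fin k)) (v : Vr k) :
    der k (some i) (sh A v) = if i ∈ A then 0 else sh (insert i A) v := by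
  unfold sh
  by_cases hd : Disjoint A v.2
  · rw [if_pos hd, der_X]
    simp only [dX, Finset.mem_union]
    by_cases hi : i ∈ A
    · simp [hi]
    · by_cases hi' : i ∈ v.2
      · have : ¬ Disjoint (insert i A) v.2 := by
          rw [Finset.disjoint_left]
          push Not
          exact ⟨i, Finset.mem_insert_self _ _, hi'⟩
        simp [hi, hi', this]
      · have : Disjoint (insert i A) v.2 := by
          rw [Finset.disjoint_insert_left]
          exact ⟨hi', hd⟩
        simp [hi, hi', this, hd, Finset.insert_union]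
  · have : ¬ Disjoint (insert i A) v.2 := by
      intro h
      apply hd
      rw [Finset.disjoint_insert_left] at h
      exact h.2
    simp [hd, this]

/-- linear combinations of shifted variables -/
noncomputable def lin (A : Finset (Fin k)) (c : Vr k → ZMod 2) : TT k := ∑ v, c v • sh A v

lemma der_none_lin (A : Finset (Fin k)) (c : Vr k → ZMod 2) :
    der k none (lin A c) = lin A c := by
  simp only [lin, map_sum, Derivation.map_smul, der_none_sh]

lemma der_some_lin (i : Fin k) (A : Finset (Fin k)) (c : Vr k → ZMod 2) :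
    der k (some i) (lin A c) = if i ∈ A then 0 else lin (insert i A) c := by
  simp only [lin, map_sum, Derivation.map_smul, der_some_sh]
  split_ifs <;> simp

/-- iterated derivatives of a linear form are combinations of shifted forms -/
lemma iter_lin (c : Vr k → ZMod 2) (l : List (Option (Fin k) → ZMod 2)) :
    l.foldr (fun d t => DD k d t) (lin ∅ c) ∈
      Submodule.span (ZMod 2) {t | ∃ A : Finset (Fin k), A.card ≤ l.length ∧ t = lin A c} := by
  induction l with
  | nil =>
    apply Submodule.subset_span
    exact ⟨∅, by simp, rfl⟩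
  | cons d l ih =>
    rw [List.foldr_cons]
    generalize l.foldr (fun d t => DD k d t) (lin ∅ c) = t at ih ⊢
    induction ih using Submodule.span_induction with
    | mem t ht =>
      obtain ⟨A, hA, rfl⟩ := ht
      rw [DD_apply]
      apply Submodule.sum_mem
      intro o _
      apply Submodule.smul_mem
      cases o with
      | none =>
        rw [der_none_lin]
        apply Submodule.subset_span
        exact ⟨A, by simp; omega, rfl⟩
      | some i =>
        rw [der_some_lin]
        split_ifs with h
        · exact Submodule.zero_mem _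
        · apply Submodule.subset_span
          refine ⟨insert i A, ?_, rfl⟩
          rw [Finset.card_insert_of_notMem h]
          simp; omega
    | zero => rw [map_zero]; exact Submodule.zero_mem _
    | add t t' _ _ h1 h2 => rw [map_add]; exact Submodule.add_mem _ h1 h2
    | smul a t _ h => rw [Derivation.map_smul]; exact Submodule.smul_mem _ _ h

/-- indicator -/
def ind (i : Fin k) (A : Finset (Fin k)) : ℕ := if i ∈ A then 1 else 0

/-- the condition for a product of six variables -/
def six (s : Vr k →₀ ℕ) (v w v' w' : Vr k) (A B : Finset (Fin k)) : Prop :=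
  s = 0 ∧ v.1 ≠ v'.1 ∧ w.1 ≠ w'.1 ∧ ∀ i : Fin k,
    ind i v.2 + ind i w.2 + ind i v'.2 + ind i w'.2 + ind i A + ind i B = 1

lemma cond_six (s : Vr k →₀ ℕ) (v w v' w' : Vr k) (A B : Finset (Fin k))
    (hA : Disjoint A w.2) (hB : Disjoint B w'.2) :
    cond (s + (Finsupp.single v 2 + Finsupp.single (w.1, A ∪ w.2) 1) +
      (Finsupp.single v' 2 + Finsupp.single (w'.1, B ∪ w'.2) 1)) ↔ six s v w v' w' A B := by
  rcases v with ⟨b1, S1⟩
  rcases w with ⟨b2, S2⟩
  rcases v' with ⟨b3, S3⟩
  rcases w' with ⟨b4, S4⟩
  unfold cond six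
  simp only [nb_add, pb_add, nb_single, pb_single, Finset.mem_union]
  have key : ∀ i : Fin k, (i ∈ A → i ∉ S2) ∧ (i ∈ B → i ∉ S4) := by
    intro i
    exact ⟨fun h => Finset.disjoint_left.1 hA h, fun h => Finset.disjoint_left.1 hB h⟩
  constructor
  · rintro ⟨h1, h2, h3⟩
    have hs : nb false s + nb true s = 0 := by
      revert h1 h2
      cases b1 <;> cases b2 <;> cases b3 <;> cases b4 <;> simp <;> omega
    have hs0 : s = 0 := by
      rw [← sum_eq_nb, Finsupp.sum, Finset.sum_eq_zero_iff] at hs
      ext v
      by_cases hv : v ∈ s.support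
      · exact hs v hv
      · simpa using hv
    subst hs0
    have z1 : ∀ b, nb b (0 : Vr k →₀ ℕ) = 0 := fun b => map_zero _
    have z2 : ∀ b i, pb b i (0 : Vr k →₀ ℕ) = 0 := fun b i => map_zero _
    rw [z1] at h1 h2
    have hb : b1 ≠ b3 ∧ b2 ≠ b4 := by
      revert h1 h2
      clear h3 hs
      cases b1 <;> cases b2 <;> cases b3 <;> cases b4 <;> simp
    refine ⟨rfl, hb.1, hb.2, fun i => ?_⟩
    have h4 := h3 i
    have h5 := key i
    rw [z2, z2] at h4
    unfold good at h4
    unfold ind
    obtain ⟨hb1, hb2⟩ := hb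
    revert h4 h5
    clear h1 h2 h3 hs key
    cases b1 <;> cases b2 <;> cases b3 <;> cases b4 <;>
      first
      | exact absurd rfl hb1
      | exact absurd rfl hb2
      | (by_cases q1 : i ∈ A <;> by_cases q2 : i ∈ S1 <;> by_cases q3 : i ∈ S2 <;>
          by_cases q4 : i ∈ S3 <;> by_cases q5 : i ∈ S4 <;> by_cases q6 : i ∈ B <;>
          simp [q1, q2, q3, q4, q5, q6])
  · rintro ⟨rfl, hb1, hb2, h3⟩
    have z1 : ∀ b, nb b (0 : Vr k →₀ ℕ) = 0 := fun b => map_zero _
    have z2 : ∀ b i, pb b i (0 : Vr k →₀ ℕ) = 0 := fun b i => map_zero _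
    refine ⟨?_, ?_, fun i => ?_⟩
    · rw [z1]
      revert hb1 hb2
      cases b1 <;> cases b2 <;> cases b3 <;> cases b4 <;> simp
    · rw [z1]
      revert hb1 hb2
      cases b1 <;> cases b2 <;> cases b3 <;> cases b4 <;> simp
    · have h4 := h3 i
      have h5 := key i
      rw [z2, z2]
      unfold ind at h4
      unfold good
      revert h4 h5
      clear h3 key
      cases b1 <;> cases b2 <;> cases b3 <;> cases b4 <;>
        first
        | exact absurd rfl hb1
        | exact absurd rfl hb2
        | (by_cases q1 : i ∈ A <;> by_cases q2 : i ∈ S1 <;> by_cases q3 : i ∈ S2 <;>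
            by_cases q4 : i ∈ S3 <;> by_cases q5 : i ∈ S4 <;> by_cases q6 : i ∈ B <;>
            simp [q1, q2, q3, q4, q5, q6])

open Classical in
lemma Q_formula (s : Vr k →₀ ℕ) (v w v' w' : Vr k) (A B : Finset (Fin k)) :
    Th k (monomial s 1 * ((X v) ^ 2 * sh A w) * ((X v') ^ 2 * sh B w')) =
      if six s v w v' w' A B then 1 else 0 := by
  by_cases hA : Disjoint A w.2
  · by_cases hB : Disjoint B w'.2
    · have h1 : (monomial s 1 * ((X v) ^ 2 * sh A w) * ((X v') ^ 2 * sh B w') : TT k) =
          monomial (s + (Finsupp.single v 2 + Finsupp.single (w.1, A ∪ w.2) 1) +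
            (Finsupp.single v' 2 + Finsupp.single (w'.1, B ∪ w'.2) 1)) 1 := by
        simp only [sh, hA, hB, if_true, X, monomial_pow, monomial_mul, one_pow, mul_one,
          Finsupp.smul_single, smul_eq_mul]
      rw [h1, Th_one]
      exact if_congr (cond_six s v w v' w' A B hA hB) rfl rfl
    · have h2 : ¬ six s v w v' w' A B := by
        rintro ⟨-, -, -, h⟩
        apply hB
        rw [Finset.disjoint_left]
        intro i hi hi'
        have := h i
        simp only [ind, hi, hi', if_true] at this
        omega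
      simp [sh, hB, h2]
  · have h2 : ¬ six s v w v' w' A B := by
      rintro ⟨-, -, -, h⟩
      apply hA
      rw [Finset.disjoint_left]
      intro i hi hi'
      have := h i
      simp only [ind, hi, hi', if_true] at this
      omega
    simp [sh, hA, h2]

lemma six_swap (s : Vr k →₀ ℕ) (v w v' w' : Vr k) (A B : Finset (Fin k)) :
    six s v w v' w' A B ↔ six s w v w' v' A B := by
  have h : ∀ (v w v' w' : Vr k), six s v w v' w' A B → six s w v w' v' A B := by
    rintro v w v' w' ⟨h1, h2, h3, h4⟩
    refine ⟨h1, h3, h2, fun i => ?_⟩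
    have := h4 i
    omega
  exact ⟨h v w v' w', h w v w' v'⟩

lemma six_diag (s : Vr k →₀ ℕ) (v v' : Vr k) (A B : Finset (Fin k))
    (h : A.card + B.card < k) : ¬ six s v v v' v' A B := by
  rintro ⟨-, -, -, h4⟩
  have h5 : (Finset.univ : Finset (Fin k)) ⊆ A ∪ B := by
    intro i _
    have := h4 i
    rw [Finset.mem_union]
    by_contra hn
    push Not at hn
    simp only [ind, hn.1, hn.2, if_false] at this
    split_ifs at this <;> omega
  have h6 := Finset.card_le_card h5
  have h7 := Finset.card_union_le A B
  rw [Finset.card_univ, Fintype.card_fin] at h6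
  omega

lemma lin_sq (c : Vr k → ZMod 2) : (lin ∅ c) ^ 2 = ∑ v, c v • (X v : TT k) ^ 2 := by
  unfold lin
  rw [CharTwo.sum_sq]
  apply Finset.sum_congr rfl
  intro v _
  rw [sh_empty, smul_pow]
  congr 1
  generalize c v = a
  revert a
  decide

lemma expand4 {V R : Type} [Fintype V] [CommRing R] (m : R) (a b a' b' : V → R) :
    m * ((∑ v, a v) * (∑ v, b v)) * ((∑ v, a' v) * (∑ v, b' v)) =
      ∑ x : V × V × V × V, m * (a x.1 * b x.2.1) * (a' x.2.2.1 * b' x.2.2.2) := by
  simp only [Fintype.sum_prod_type]
  rw [Finset.sum_mul, Finset.mul_sum, Finset.sum_mul]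
  apply Finset.sum_congr rfl
  intro v _
  rw [Finset.mul_sum, Finset.mul_sum, Finset.sum_mul]
  apply Finset.sum_congr rfl
  intro w _
  rw [Finset.sum_mul, Finset.mul_sum]
  apply Finset.sum_congr rfl
  intro v' _
  rw [Finset.mul_sum, Finset.mul_sum]

lemma vanish_monomial (s : Vr k →₀ ℕ) (c c' : Vr k → ZMod 2) (A B : Finset (Fin k))
    (h : A.card + B.card < k) :
    Th k (monomial s 1 * ((lin ∅ c) ^ 2 * lin A c) * ((lin ∅ c') ^ 2 * lin B c')) = 0 := by
  classical
  have h1 : (monomial s 1 * ((lin ∅ c) ^ 2 * lin A c) * ((lin ∅ c') ^ 2 * lin B c') : TT k) =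
      ∑ x : Vr k × Vr k × Vr k × Vr k, (c x.1 * c x.2.1 * c' x.2.2.1 * c' x.2.2.2) •
        (monomial s 1 * ((X x.1) ^ 2 * sh A x.2.1) * ((X x.2.2.1) ^ 2 * sh B x.2.2.2) : TT k) := by
    rw [lin_sq, lin_sq]
    unfold lin
    rw [expand4]
    apply Finset.sum_congr rfl
    intro x _
    simp only [smul_mul_assoc, mul_smul_comm, smul_smul]
    congr 1
    ring
  rw [h1, map_sum]
  simp only [map_smul, Q_formula]
  apply Finset.sum_involution (fun x _ => (x.2.1, x.1, x.2.2.2, x.2.2.1))
  · rintro ⟨v, w, v', w'⟩ -
    simp only [six_swap s w v w' v' A B]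
    have : (c w * c v * c' w' * c' v') = (c v * c w * c' v' * c' w') := by ring
    rw [this]
    exact CharTwo.add_self_eq_zero _
  · rintro ⟨v, w, v', w'⟩ - hne heq
    simp only [Prod.mk.injEq] at heq
    obtain ⟨e1, -, e2, -⟩ := heq
    subst e1 e2
    apply hne
    simp [six_diag s _ _ A B h]
  · intro x _
    rfl
  · intro x _
    exact Finset.mem_univ _

lemma vanish_poly (ρ : TT k) (c c' : Vr k → ZMod 2) (A B : Finset (Fin k))
    (h : A.card + B.card < k) :
    Th k (ρ * ((lin ∅ c) ^ 2 * lin A c) * ((lin ∅ c') ^ 2 * lin B c')) = 0 := by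
  induction ρ using MvPolynomial.induction_on' with
  | monomial s a =>
    have : monomial s a = a • (monomial s (1 : ZMod 2) : TT k) := by
      rw [smul_monomial, smul_eq_mul, mul_one]
    rw [this, smul_mul_assoc, smul_mul_assoc, map_smul, vanish_monomial s c c' A B h, smul_zero]
  | add p q hp hq => rw [add_mul, add_mul, map_add, hp, hq, add_zero]

/-- the space of linear forms -/
noncomputable def WW (k : ℕ) : Submodule (ZMod 2) (TT k) :=
  Submodule.span (ZMod 2) (Set.range (X : Vr k → TT k))

lemma mem_WW {t : TT k} (ht : t ∈ WW k) : ∃ c : Vr k → ZMod 2, t = lin ∅ c := by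
  unfold WW at ht
  rw [Submodule.mem_span_range_iff_exists_fun] at ht
  obtain ⟨c, hc⟩ := ht
  refine ⟨c, ?_⟩
  rw [← hc]
  simp only [lin, sh_empty]

lemma X_mem_WW (v : Vr k) : (X v : TT k) ∈ WW k :=
  Submodule.subset_span ⟨v, rfl⟩

lemma DD_WW (d : Option (Fin k) → ZMod 2) (t : TT k) (ht : t ∈ WW k) : DD k d t ∈ WW k := by
  unfold WW at ht
  induction ht using Submodule.span_induction with
  | mem t ht =>
    obtain ⟨v, rfl⟩ := ht
    rw [DD_apply]
    apply Submodule.sum_mem
    intro o _
    apply Submodule.smul_mem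
    rw [der_X]
    cases o with
    | none => exact X_mem_WW v
    | some i =>
      simp only [dX]
      split_ifs
      · exact Submodule.zero_mem _
      · exact X_mem_WW _
  | zero => rw [map_zero]; exact Submodule.zero_mem _
  | add t t' _ _ h1 h2 => rw [map_add]; exact Submodule.add_mem _ h1 h2
  | smul a t _ h => rw [Derivation.map_smul]; exact Submodule.smul_mem _ _ h

lemma vanish_final (ρ α β : TT k) (l l' : List (Option (Fin k) → ZMod 2)) (hα : α ∈ WW k)
    (hβ : β ∈ WW k) (h : l.length + l'.length < k) :
    Th k (ρ * (α ^ 2 * l.foldr (fun d t => DD k d t) α) *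
      (β ^ 2 * l'.foldr (fun d t => DD k d t) β)) = 0 := by
  obtain ⟨c, rfl⟩ := mem_WW hα
  obtain ⟨c', rfl⟩ := mem_WW hβ
  have h1 := iter_lin c l
  have h2 := iter_lin c' l'
  generalize l.foldr (fun d t => DD k d t) (lin ∅ c) = t at h1 ⊢
  generalize l'.foldr (fun d t => DD k d t) (lin ∅ c') = t' at h2 ⊢
  induction h1 using Submodule.span_induction with
  | mem t ht =>
    obtain ⟨A, hA, rfl⟩ := ht
    induction h2 using Submodule.span_induction with
    | mem t' ht' =>
      obtain ⟨B, hB, rfl⟩ := ht'
      exact vanish_poly ρ c c' A B (by omega)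
    | zero => simp
    | add t t' _ _ h1 h2 => rw [mul_add, mul_add, map_add, h1, h2, add_zero]
    | smul a t _ h => rw [mul_smul_comm, mul_smul_comm, map_smul, h, smul_zero]
  | zero => simp
  | add t t' _ _ h1 h2 => rw [mul_add, mul_add, add_mul, map_add, h1, h2, add_zero]
  | smul a t _ h =>
    rw [mul_smul_comm, mul_smul_comm, smul_mul_assoc, map_smul, h, smul_zero]

/-- the chain data of length `k` -/
noncomputable def chain (k : ℕ) : HChain where
  T := TT k
  ι := Option (Fin k)
  D := DD k
  comm := DD_comm k
  Θ := Th k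
  hΘ := Th_DD
  S := Submodule.span (ZMod 2) {1} ⊔ WW k
  W := WW k
  one_mem := Submodule.mem_sup_left (Submodule.mem_span_singleton_self _)
  D_S := by
    intro d s hs
    rw [Submodule.mem_sup] at hs
    obtain ⟨u, hu, w, hw, rfl⟩ := hs
    rw [Submodule.mem_span_singleton] at hu
    obtain ⟨a, rfl⟩ := hu
    rw [map_add, Derivation.map_smul, Derivation.map_one_eq_zero, smul_zero, zero_add]
    exact DD_WW d w hw
  W_le := le_sup_right
  k := k
  vanish := vanish_final

end Concrete

end Pool.Agent.helper47
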