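import Mathlib
import Pool.Agent.helper47.HeisConcrete

set_option autoImplicit false

namespace Pool.Agent.helper47

open MvPolynomial

section Bad

variable (k : ℕ)

/-- elements of the big Lie algebra -/
noncomputable def el (z : ZMod 2) (a b r : TT k) (x y : ZMod 2) (d : Option (Fin k) → ZMod 2) :
    Heis (chain k).toHData :=
  Heis.mk (P := (chain k).toHData) z a b r x y d

lemma el_mem {z : ZMod 2} {a b r : TT k} {x y : ZMod 2} {d : Option (Fin k) → ZMod 2}
    (hr : r ∈ Submodule.span (ZMod 2) {(1 : TT k)} ⊔ WW k) : el k z a b r x y d ∈ (chain k).K := hr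

lemma el_br (z z' : ZMod 2) (a b r a' b' r' : TT k) (x y x' y' : ZMod 2)
    (d d' : Option (Fin k) → ZMod 2) :
    ⁅el k z a b r x y d, el k z' a' b' r' x' y' d'⁆ =
      el k (Th k (a * b' + b * a'))
        (a * r' + DD k d' a + y' • b + (a' * r + DD k d a' + y • b'))
        (b * r' + DD k d' b + x' • a + (b' * r + DD k d b' + x • a'))
        (DD k d' r + DD k d r' + (x * y' + y * x') • (1 : TT k)) 0 0 0 := rfl

lemma zero_mem_S : (0 : TT k) ∈ Submodule.span (ZMod 2) {(1 : TT k)} ⊔ WW k :=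
  Submodule.zero_mem _

lemma one_mem_S : (1 : TT k) ∈ Submodule.span (ZMod 2) {(1 : TT k)} ⊔ WW k :=
  Submodule.mem_sup_left (Submodule.mem_span_singleton_self _)

lemma X_mem_S (v : Vr k) : (X v : TT k) ∈ Submodule.span (ZMod 2) {(1 : TT k)} ⊔ WW k :=
  Submodule.mem_sup_right (X_mem_WW v)

/-- the direction of a basic derivation -/
def dir (o : Option (Fin k)) : Option (Fin k) → ZMod 2 := Pi.single o 1

lemma DD_dir (o : Option (Fin k)) (t : TT k) : DD k (dir k o) t = der k o t := by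
  rw [DD_apply, Finset.sum_eq_single o]
  · simp [dir]
  · intro o' _ h
    simp [dir, h]
  · intro h; exact absurd (Finset.mem_univ _) h

lemma DD_zero (t : TT k) : DD k 0 t = 0 := by
  rw [map_zero]; rfl

set_option linter.unusedSimpArgs false

lemma br_one_a (t : TT k) : ⁅el k 0 t 0 0 0 0 0, el k 0 0 0 1 0 0 0⁆ = el k 0 t 0 0 0 0 0 := by
  rw [el_br]
  simp only [DD_dir, mul_zero, zero_mul, mul_one, add_zero, zero_add, map_zero,
    Derivation.zero_apply, zero_smul, smul_zero, one_smul]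

lemma br_one_b (t : TT k) : ⁅el k 0 0 t 0 0 0 0, el k 0 0 0 1 0 0 0⁆ = el k 0 0 t 0 0 0 0 := by
  rw [el_br]
  simp only [DD_dir, mul_zero, zero_mul, mul_one, add_zero, zero_add, map_zero,
    Derivation.zero_apply, zero_smul, smul_zero, one_smul]

lemma br_xy : ⁅el k 0 0 0 0 1 0 0, el k 0 0 0 0 0 1 0⁆ = el k 0 0 0 1 0 0 0 := by
  rw [el_br]
  simp only [DD_dir, mul_zero, zero_mul, mul_one, add_zero, zero_add, map_zero,
    Derivation.zero_apply, zero_smul, smul_zero, one_smul]

lemma br_euler (v : Vr k) :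
    ⁅el k 0 0 0 (X v) 0 0 0, el k 0 0 0 0 0 0 (dir k none)⁆ = el k 0 0 0 (X v) 0 0 0 := by
  have hX : der k none (X v) = X v := der_X k none _
  rw [el_br]
  simp only [DD_dir, hX, mul_zero, zero_mul, mul_one, add_zero, zero_add, map_zero,
    Derivation.zero_apply, zero_smul, smul_zero, one_smul]

lemma br_a_r (t u : TT k) :
    ⁅el k 0 t 0 0 0 0 0, el k 0 0 0 u 0 0 0⁆ = el k 0 (t * u) 0 0 0 0 0 := by
  rw [el_br]
  simp only [DD_dir, mul_zero, zero_mul, mul_one, add_zero, zero_add, map_zero,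
    Derivation.zero_apply, zero_smul, smul_zero, one_smul]

lemma br_b_r (t u : TT k) :
    ⁅el k 0 0 t 0 0 0 0, el k 0 0 0 u 0 0 0⁆ = el k 0 0 (t * u) 0 0 0 0 := by
  rw [el_br]
  simp only [DD_dir, mul_zero, zero_mul, mul_one, add_zero, zero_add, map_zero,
    Derivation.zero_apply, zero_smul, smul_zero, one_smul]

/-- the value of `f` at the chosen elements, first kind -/
lemma fval_first :
    fval (el k 0 1 0 0 0 0 0) (el k 0 0 0 1 0 0 0) (el k 0 0 0 0 1 0 0) (el k 0 0 0 0 0 1 0)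
      (el k 0 0 0 (X (false, ∅)) 0 0 0) (el k 0 0 0 0 0 0 (dir k none))
      (el k 0 0 0 0 0 0 (dir k none)) =
    el k 0 (X (false, ∅) ^ 3) 0 0 0 0 0 := by
  unfold fval
  rw [br_one_a, br_xy, br_one_a, br_euler, br_euler, br_a_r, br_a_r, br_a_r]
  have : (1 * X (false, ∅) * X (false, ∅) * X (false, ∅) : TT k) = X (false, ∅) ^ 3 := by ring
  rw [this]

lemma fval_second :
    fval (el k 0 0 1 0 0 0 0) (el k 0 0 0 1 0 0 0) (el k 0 0 0 0 1 0 0) (el k 0 0 0 0 0 1 0)
      (el k 0 0 0 (X (true, ∅)) 0 0 0) (el k 0 0 0 0 0 0 (dir k none))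
      (el k 0 0 0 0 0 0 (dir k none)) =
    el k 0 0 (X (true, ∅) ^ 3) 0 0 0 0 := by
  unfold fval
  rw [br_one_b, br_xy, br_one_b, br_euler, br_euler, br_b_r, br_b_r, br_b_r]
  have : (1 * X (true, ∅) * X (true, ∅) * X (true, ∅) : TT k) = X (true, ∅) ^ 3 := by ring
  rw [this]

lemma step_der (S : Finset (Fin k)) (i : Fin k) (hi : i ∉ S) :
    ⁅el k 0 (X (false, ∅) ^ 2 * X (false, S)) 0 0 0 0 0, el k 0 0 0 0 0 0 (dir k (some i))⁆ =
      el k 0 (X (false, ∅) ^ 2 * X (false, insert i S)) 0 0 0 0 0 := by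
  have h2 : (2 : TT k) = 0 := Heis.two_T (chain k).toHData
  have e1 : der k (some i) (X (false, ∅) ^ 2 * X (false, S)) =
      X (false, ∅) ^ 2 * X (false, insert i S) := by
    rw [Derivation.leibniz, pow_two, Derivation.leibniz, der_X, der_X]
    simp only [dX, hi, if_false, smul_eq_mul]
    linear_combination (X (false, S) * (X (false, ∅) *
      (if i ∈ (∅ : Finset (Fin k)) then 0 else X (false, insert i ∅)))) * h2
  rw [el_br, DD_dir, e1]
  simp only [DD_zero, mul_zero, zero_mul, add_zero, zero_add, map_zero, Derivation.zero_apply, zero_smul, smul_zero]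

lemma fold_der (l : List (Fin k)) (hl : l.Nodup) (S : Finset (Fin k)) (hS : ∀ i ∈ l, i ∉ S) :
    (l.map (fun i => el k 0 0 0 0 0 0 (dir k (some i)))).foldl (fun p q => ⁅p, q⁆)
      (el k 0 (X (false, ∅) ^ 2 * X (false, S)) 0 0 0 0 0) =
      el k 0 (X (false, ∅) ^ 2 * X (false, S ∪ l.toFinset)) 0 0 0 0 0 := by
  induction l generalizing S with
  | nil => simp
  | cons i l ih =>
    rw [List.map_cons, List.foldl_cons, step_der k S i (hS i (by simp))]
    rw [List.nodup_cons] at hl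
    rw [ih hl.2 (insert i S)]
    · have : insert i S ∪ l.toFinset = S ∪ (i :: l).toFinset := by
        ext j
        simp only [Finset.mem_union, Finset.mem_insert, List.toFinset_cons]
        tauto
      rw [this]
    · intro j hj
      rw [Finset.mem_insert]
      push Not
      refine ⟨?_, hS j (by simp [hj])⟩
      rintro rfl
      exact hl.1 hj

lemma six_top : six (k := k) 0 (false, ∅) (false, ∅) (true, ∅) (true, ∅) Finset.univ ∅ := by
  refine ⟨rfl, by simp, by simp, fun i => ?_⟩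
  simp [ind]

lemma last_bracket :
    ⁅el k 0 (X (false, ∅) ^ 2 * X (false, Finset.univ)) 0 0 0 0 0,
      el k 0 0 (X (true, ∅) ^ 3) 0 0 0 0⁆ = el k 1 0 0 0 0 0 0 := by
  classical
  rw [el_br]
  have h1 : Th k (X (false, ∅) ^ 2 * X (false, Finset.univ) * X (true, ∅) ^ 3 + 0 * 0) = 1 := by
    have h2 := Q_formula (k := k) 0 (false, ∅) (false, ∅) (true, ∅) (true, ∅) Finset.univ ∅
    rw [if_pos (six_top k)] at h2
    rw [← h2]
    congr 1
    simp only [sh, Finset.disjoint_empty_right, if_true, Finset.union_empty]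
    rw [show (monomial (0 : Vr k →₀ ℕ)) (1 : ZMod 2) = 1 from rfl]
    ring
  rw [h1]
  simp only [DD_zero, mul_zero, zero_mul, add_zero, zero_add, map_zero, Derivation.zero_apply, zero_smul, smul_zero]

lemma chain_bad : (chain k).Bad := by
  have m0 := zero_mem_S k
  have m1 := one_mem_S k
  refine ⟨⟨el k 0 (X (false, ∅) ^ 3) 0 0 0 0 0, el_mem k m0⟩,
    ⟨el k 0 0 (X (true, ∅) ^ 3) 0 0 0 0, el_mem k m0⟩, ?_, ?_,
    (List.finRange k).map (fun i => ⟨el k 0 0 0 0 0 0 (dir k (some i)), el_mem k m0⟩), ?_⟩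
  · have := fval_vals (L := (chain k).K)
      ⟨el k 0 1 0 0 0 0 0, el_mem k m0⟩ ⟨el k 0 0 0 1 0 0 0, el_mem k m1⟩
      ⟨el k 0 0 0 0 1 0 0, el_mem k m0⟩ ⟨el k 0 0 0 0 0 1 0, el_mem k m0⟩
      ⟨el k 0 0 0 (X (false, ∅)) 0 0 0, el_mem k (X_mem_S k _)⟩
      ⟨el k 0 0 0 0 0 0 (dir k none), el_mem k m0⟩ ⟨el k 0 0 0 0 0 0 (dir k none), el_mem k m0⟩
    convert this using 1
    apply Subtype.ext
    rw [coe_fval]
    exact (fval_first k).symm
  · have := fval_vals (L := (chain k).K)
      ⟨el k 0 0 1 0 0 0 0, el_mem k m0⟩ ⟨el k 0 0 0 1 0 0 0, el_mem k m1⟩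
      ⟨el k 0 0 0 0 1 0 0, el_mem k m0⟩ ⟨el k 0 0 0 0 0 1 0, el_mem k m0⟩
      ⟨el k 0 0 0 (X (true, ∅)) 0 0 0, el_mem k (X_mem_S k _)⟩
      ⟨el k 0 0 0 0 0 0 (dir k none), el_mem k m0⟩ ⟨el k 0 0 0 0 0 0 (dir k none), el_mem k m0⟩
    convert this using 1
    apply Subtype.ext
    rw [coe_fval]
    exact (fval_second k).symm
  · have hfold : ∀ (l : List (Fin k)) (u : (chain k).K),
        (((l.map (fun i => (⟨el k 0 0 0 0 0 0 (dir k (some i)), el_mem k m0⟩ :
          (chain k).K))).foldl (fun p q => ⁅p, q⁆) u : (chain k).K) : Heis (chain k).toHData) =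
        (l.map (fun i => el k 0 0 0 0 0 0 (dir k (some i)))).foldl (fun p q => ⁅p, q⁆)
          (u : Heis (chain k).toHData) := by
      intro l
      induction l with
      | nil => intro u; rfl
      | cons i l ih =>
        intro u
        rw [List.map_cons, List.foldl_cons, ih, List.map_cons, List.foldl_cons]
        rfl
    intro h0
    have h1 := congrArg (fun u : (chain k).K => (u : Heis (chain k).toHData)) h0
    simp only [LieSubalgebra.coe_bracket] at h1
    rw [hfold] at h1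
    have h2 := fold_der k (List.finRange k) (List.nodup_finRange k) ∅ (by simp)
    have h3 : (∅ : Finset (Fin k)) ∪ (List.finRange k).toFinset = Finset.univ := by
      ext i; simp
    rw [h3] at h2
    have h4 : (X (false, ∅) ^ 3 : TT k) = X (false, ∅) ^ 2 * X (false, ∅) := by ring
    have h5 := last_bracket k
    rw [← h2, ← h4] at h5
    have h6 : el k 1 0 0 0 0 0 0 = 0 := by
      rw [← h5]
      exact h1
    have h7 := congrArg Heis.z h6
    exact one_ne_zero h7

end Bad

end Pool.Agent.helper47
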